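import Mathlib
import Pool.Agent.helper99.LC.Defs

/-!
# Geometric realization of a connected locally finite graph as a proper geodesic metric space
(Module R of MP_c915fc_gt)
-/

set_option autoImplicit false

namespace Pool.Agent.helper50.LC

open Pool.Agent.helper99.LC

variable {V : Type} (G : SimpleGraph V)

/-- Points: on the edge `u v` (or at the vertex `u = v`) at position `t ∈ [0,1]`. -/
@[ext] structure Pt where
  u : V
  v : V
  t : ℝ
  h : u = v ∨ G.Adj u v
  ht : 0 ≤ t ∧ t ≤ 1

variable {G}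

/-- graph distance as a real number -/
noncomputable def dd (G : SimpleGraph V) (u w : V) : ℝ := (G.dist u w : ℝ)

theorem dd_self (u : V) : dd G u u = 0 := by simp [dd]

theorem dd_comm (u v : V) : dd G u v = dd G v u := by simp [dd, SimpleGraph.dist_comm]

theorem dd_nonneg (u v : V) : 0 ≤ dd G u v := by simp [dd]

theorem dd_tri (hc : G.Connected) (u v w : V) : dd G u w ≤ dd G u v + dd G v w := by
  have := hc.dist_triangle (u := u) (v := v) (w := w)
  unfold dd
  exact_mod_cast this

/-- length of the edge carrying the point -/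
noncomputable def Pt.l (x : Pt G) : ℝ := dd G x.u x.v

theorem Pt.l_nonneg (x : Pt G) : 0 ≤ x.l := dd_nonneg _ _

theorem Pt.l_le_one (x : Pt G) : x.l ≤ 1 := by
  unfold Pt.l dd
  rcases x.h with h | h
  · simp [h]
  · rw [SimpleGraph.dist_eq_one_iff_adj.2 h]
    simp

/-- distance from a point to a vertex -/
noncomputable def aa (x : Pt G) (w : V) : ℝ :=
  min (x.t * x.l + dd G x.u w) ((1 - x.t) * x.l + dd G x.v w)

theorem aa_nonneg (x : Pt G) (w : V) : 0 ≤ aa x w := by
  have h1 := x.ht
  have h2 := x.l_nonneg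
  have h3 : 0 ≤ x.t * x.l := mul_nonneg h1.1 h2
  have h4 : 0 ≤ (1 - x.t) * x.l := mul_nonneg (by linarith) h2
  unfold aa
  have h5 := dd_nonneg (G := G) x.u w
  have h6 := dd_nonneg (G := G) x.v w
  apply le_min <;> linarith

theorem aa_u (x : Pt G) : aa x x.u = x.t * x.l := by
  unfold aa
  rw [dd_self, add_zero]
  apply min_eq_left
  have h1 := x.ht
  have h2 := x.l_nonneg
  have : dd G x.v x.u = x.l := dd_comm _ _
  rw [this]
  nlinarith

theorem aa_v (x : Pt G) : aa x x.v = (1 - x.t) * x.l := by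
  unfold aa
  rw [dd_self, add_zero]
  apply min_eq_right
  have h1 := x.ht
  have h2 := x.l_nonneg
  have : dd G x.u x.v = x.l := rfl
  rw [this]
  nlinarith

theorem aa_lip (hc : G.Connected) (x : Pt G) (w w' : V) : aa x w ≤ aa x w' + dd G w' w := by
  unfold aa
  rcases min_choice (x.t * x.l + dd G x.u w') ((1 - x.t) * x.l + dd G x.v w') with h | h
  · rw [h]
    refine (min_le_left _ _).trans ?_
    have := dd_tri hc x.u w' w
    linarith
  · rw [h]
    refine (min_le_right _ _).trans ?_
    have := dd_tri hc x.v w' w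
    linarith

theorem dd_le_aa (hc : G.Connected) (x : Pt G) (w w' : V) : dd G w w' ≤ aa x w + aa x w' := by
  have h1 := x.ht
  have h2 := x.l_nonneg
  have h3 : 0 ≤ x.t * x.l := mul_nonneg h1.1 h2
  have h4 : 0 ≤ (1 - x.t) * x.l := mul_nonneg (by linarith) h2
  have e1 := dd_tri hc w x.u w'
  have e2 := dd_tri hc w x.v w'
  have e3 := dd_comm (G := G) w x.u
  have e4 := dd_comm (G := G) w x.v
  have e5 := dd_tri hc x.u x.v w'
  have e6 := dd_tri hc x.v x.u w'
  have e7 : dd G x.u x.v = x.l := rfl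
  have e8 : dd G x.v x.u = x.l := dd_comm _ _
  unfold aa
  rcases min_choice (x.t * x.l + dd G x.u w) ((1 - x.t) * x.l + dd G x.v w) with h | h <;>
  rcases min_choice (x.t * x.l + dd G x.u w') ((1 - x.t) * x.l + dd G x.v w') with h' | h' <;>
  rw [h, h'] <;> nlinarith

/-- same edge, same orientation -/
def Same (x y : Pt G) : Prop := x.u = y.u ∧ x.v = y.v

/-- same edge, opposite orientation -/
def Flip (x y : Pt G) : Prop := x.u = y.v ∧ x.v = y.u

open Classical in
/-- the distance -/
noncomputable def DD (x y : Pt G) : ℝ :=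
  min (min (aa x y.u + aa y y.u) (aa x y.v + aa y y.v))
    (if Same x y then |x.t - y.t| else if Flip x y then |x.t - (1 - y.t)| else
      (min (aa x y.u + aa y y.u) (aa x y.v + aa y y.v)))

theorem DD_nonneg (x y : Pt G) : 0 ≤ DD x y := by
  unfold DD
  have h1 := aa_nonneg x y.u
  have h2 := aa_nonneg x y.v
  have h3 := aa_nonneg y y.u
  have h4 := aa_nonneg y y.v
  have h5 : 0 ≤ min (aa x y.u + aa y y.u) (aa x y.v + aa y y.v) :=
    le_min (by linarith) (by linarith)
  refine le_min h5 ?_
  split_ifs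
  · exact abs_nonneg _
  · exact abs_nonneg _
  · exact h5

theorem DD_le_aa (hc : G.Connected) (x y : Pt G) (w : V) : DD x y ≤ aa x w + aa y w := by
  refine (min_le_left _ _).trans ?_
  rw [aa_u, aa_v]
  have h1 := aa_lip hc x y.u w
  have h2 := aa_lip hc x y.v w
  rcases min_choice (y.t * y.l + dd G y.u w) ((1 - y.t) * y.l + dd G y.v w) with h | h
  · refine (min_le_left _ _).trans ?_
    have : aa y w = y.t * y.l + dd G y.u w := h
    rw [this]
    have := dd_comm (G := G) w y.u
    linarith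
  · refine (min_le_right _ _).trans ?_
    have : aa y w = (1 - y.t) * y.l + dd G y.v w := h
    rw [this]
    have := dd_comm (G := G) w y.v
    linarith

theorem DD_le_same {x y : Pt G} (h : Same x y) : DD x y ≤ |x.t - y.t| := by
  refine (min_le_right _ _).trans ?_
  rw [if_pos h]

theorem DD_le_flip (hc : G.Connected) {x y : Pt G} (h : Flip x y) :
    DD x y ≤ |x.t - (1 - y.t)| := by
  by_cases hs : Same x y
  · have huv : x.u = x.v := hs.1.trans h.2.symm
    have h1 := DD_le_aa hc x y x.u
    have hl : x.l = 0 := by unfold Pt.l; rw [← huv, dd_self]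
    have hl2 : y.l = 0 := by unfold Pt.l; rw [← hs.1, ← hs.2, ← huv, dd_self]
    have e1 : aa x x.u = 0 := by rw [aa_u, hl, mul_zero]
    have e2 : aa y x.u = 0 := by rw [hs.1, aa_u, hl2, mul_zero]
    rw [e1, e2, add_zero] at h1
    exact h1.trans (abs_nonneg _)
  · refine (min_le_right _ _).trans ?_
    rw [if_neg hs, if_pos h]

theorem DD_cases (x y : Pt G) : (∃ w, DD x y = aa x w + aa y w) ∨
    (Same x y ∧ DD x y = |x.t - y.t|) ∨ (Flip x y ∧ DD x y = |x.t - (1 - y.t)|) := by
  unfold DD
  have key : ∀ r, r = min (aa x y.u + aa y y.u) (aa x y.v + aa y y.v) →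
      ∃ w, r = aa x w + aa y w := by
    intro r hr
    rcases min_choice (aa x y.u + aa y y.u) (aa x y.v + aa y y.v) with h | h
    · exact ⟨y.u, hr.trans h⟩
    · exact ⟨y.v, hr.trans h⟩
  split_ifs with h1 h2
  · rcases min_choice (min (aa x y.u + aa y y.u) (aa x y.v + aa y y.v)) (|x.t - y.t|) with h | h
    · exact Or.inl (key _ h)
    · exact Or.inr (Or.inl ⟨h1, h⟩)
  · rcases min_choice (min (aa x y.u + aa y y.u) (aa x y.v + aa y y.v))
      (|x.t - (1 - y.t)|) with h | h
    · exact Or.inl (key _ h)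
    · exact Or.inr (Or.inr ⟨h2, h⟩)
  · exact Or.inl (key _ (min_self _))

theorem aa_same {x y : Pt G} (h : Same x y) (w : V) : aa x w ≤ |x.t - y.t| + aa y w := by
  have hl : x.l = y.l := by unfold Pt.l; rw [h.1, h.2]
  have h0 := y.l_nonneg
  have h1 := y.l_le_one
  have e1 : (x.t - y.t) * y.l ≤ |x.t - y.t| := by
    have := le_abs_self (x.t - y.t)
    have := abs_nonneg (x.t - y.t)
    nlinarith
  have e2 : -(x.t - y.t) * y.l ≤ |x.t - y.t| := by
    have := neg_abs_le (x.t - y.t)
    have := abs_nonneg (x.t - y.t)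
    nlinarith
  unfold aa
  rw [hl, h.1, h.2]
  rcases min_choice (y.t * y.l + dd G y.u w) ((1 - y.t) * y.l + dd G y.v w) with h | h
  · rw [h]
    refine (min_le_left _ _).trans ?_
    linarith
  · rw [h]
    refine (min_le_right _ _).trans ?_
    linarith

theorem aa_flip {x y : Pt G} (h : Flip x y) (w : V) : aa x w ≤ |x.t - (1 - y.t)| + aa y w := by
  have hl : x.l = y.l := by unfold Pt.l; rw [h.1, h.2, dd_comm]
  have h0 := y.l_nonneg
  have h1 := y.l_le_one
  have e1 : (x.t - (1 - y.t)) * y.l ≤ |x.t - (1 - y.t)| := by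
    have := le_abs_self (x.t - (1 - y.t))
    have := abs_nonneg (x.t - (1 - y.t))
    nlinarith
  have e2 : -(x.t - (1 - y.t)) * y.l ≤ |x.t - (1 - y.t)| := by
    have := neg_abs_le (x.t - (1 - y.t))
    have := abs_nonneg (x.t - (1 - y.t))
    nlinarith
  unfold aa
  rw [hl, h.1, h.2]
  rcases min_choice (y.t * y.l + dd G y.u w) ((1 - y.t) * y.l + dd G y.v w) with h | h
  · rw [h]
    refine (min_le_right _ _).trans ?_
    linarith
  · rw [h]
    refine (min_le_left _ _).trans ?_
    linarith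

theorem Same.symm {x y : Pt G} (h : Same x y) : Same y x := ⟨h.1.symm, h.2.symm⟩

theorem Flip.symm {x y : Pt G} (h : Flip x y) : Flip y x := ⟨h.2.symm, h.1.symm⟩

theorem DD_self (x : Pt G) : DD x x = 0 := by
  apply le_antisymm _ (DD_nonneg x x)
  have := DD_le_same (x := x) (y := x) ⟨rfl, rfl⟩
  simpa using this

theorem DD_comm_le (hc : G.Connected) (x y : Pt G) : DD x y ≤ DD y x := by
  rcases DD_cases y x with ⟨w, h⟩ | ⟨hs, h⟩ | ⟨hf, h⟩
  · rw [h, add_comm]
    exact DD_le_aa hc x y w
  · rw [h, abs_sub_comm]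
    exact DD_le_same hs.symm
  · rw [h]
    refine (DD_le_flip hc hf.symm).trans (le_of_eq ?_)
    congr 1
    ring

theorem DD_comm (hc : G.Connected) (x y : Pt G) : DD x y = DD y x :=
  le_antisymm (DD_comm_le hc x y) (DD_comm_le hc y x)

theorem DD_tri (hc : G.Connected) (x y z : Pt G) : DD x z ≤ DD x y + DD y z := by
  rcases DD_cases x y with ⟨w, h⟩ | ⟨hs, h⟩ | ⟨hf, h⟩
  · rcases DD_cases y z with ⟨w', h'⟩ | ⟨hs', h'⟩ | ⟨hf', h'⟩
    · rw [h, h']
      have e1 := DD_le_aa hc x z w
      have e2 := aa_lip hc z w w'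
      have e3 := dd_le_aa hc y w' w
      linarith
    · rw [h, h']
      have e1 := DD_le_aa hc x z w
      have e2 := aa_same hs'.symm w
      rw [abs_sub_comm] at e2
      linarith
    · rw [h, h']
      have e1 := DD_le_aa hc x z w
      have e2 := aa_flip hf'.symm w
      have e3 : |z.t - (1 - y.t)| = |y.t - (1 - z.t)| := by congr 1; ring
      linarith
  · rcases DD_cases y z with ⟨w', h'⟩ | ⟨hs', h'⟩ | ⟨hf', h'⟩
    · rw [h, h']
      have e1 := DD_le_aa hc x z w'
      have e2 := aa_same hs w'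
      linarith
    · rw [h, h']
      refine (DD_le_same ⟨hs.1.trans hs'.1, hs.2.trans hs'.2⟩).trans ?_
      exact abs_sub_le _ _ _
    · rw [h, h']
      refine (DD_le_flip hc ⟨hs.1.trans hf'.1, hs.2.trans hf'.2⟩).trans ?_
      exact abs_sub_le _ _ _
  · rcases DD_cases y z with ⟨w', h'⟩ | ⟨hs', h'⟩ | ⟨hf', h'⟩
    · rw [h, h']
      have e1 := DD_le_aa hc x z w'
      have e2 := aa_flip hf w'
      linarith
    · rw [h, h']
      refine (DD_le_flip hc ⟨hf.1.trans hs'.2, hf.2.trans hs'.1⟩).trans ?_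
      refine (abs_sub_le _ (1 - y.t) _).trans ?_
      have e3 : |1 - y.t - (1 - z.t)| = |y.t - z.t| := by
        rw [abs_sub_comm]; congr 1; ring
      linarith
    · rw [h, h']
      refine (DD_le_same ⟨hf.1.trans hf'.2, hf.2.trans hf'.1⟩).trans ?_
      refine (abs_sub_le _ (1 - y.t) _).trans ?_
      have e3 : |1 - y.t - z.t| = |y.t - (1 - z.t)| := by
        rw [abs_sub_comm]; congr 1; ring
      linarith

/-- the pseudometric space of points -/
@[reducible] noncomputable def ptMetric (hc : G.Connected) : PseudoMetricSpace (Pt G) where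
  dist := DD
  dist_self := DD_self
  dist_comm := DD_comm hc
  dist_triangle := DD_tri hc

/-- the point of the edge `x` at position `s` -/
def Pt.at (x : Pt G) (s : Set.Icc (0 : ℝ) 1) : Pt G := ⟨x.u, x.v, s.1, x.h, s.2⟩

/-- vertices -/
def vt (G : SimpleGraph V) (v : V) : Pt G := ⟨v, v, 0, Or.inl rfl, by norm_num⟩

theorem aa_vt (v w : V) : aa (vt G v) w = dd G v w := by
  unfold aa vt Pt.l
  simp [dd_self]

theorem DD_vt_le (hc : G.Connected) (x : Pt G) (w : V) : DD x (vt G w) = aa x w := by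
  have h1 := DD_le_aa hc x (vt G w) w
  rw [aa_vt, dd_self, add_zero] at h1
  apply le_antisymm h1
  rcases DD_cases x (vt G w) with ⟨w', h⟩ | ⟨hs, h⟩ | ⟨hf, h⟩
  · rw [h, aa_vt]
    have := aa_lip hc x w w'
    have := dd_comm (G := G) w' w
    linarith
  · rw [h]
    have := aa_same hs w
    rw [aa_vt, dd_self, add_zero] at this
    exact this
  · rw [h]
    have := aa_flip hf w
    rw [aa_vt, dd_self, add_zero] at this
    exact this

theorem DD_vt_vt (hc : G.Connected) (v w : V) : DD (vt G v) (vt G w) = dd G v w := by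
  rw [DD_vt_le hc, aa_vt]

theorem aa_diff (hc : G.Connected) (x y : Pt G) (w : V) : |aa x w - aa y w| ≤ DD x y := by
  have h1 := DD_tri hc x y (vt G w)
  have h2 := DD_tri hc y x (vt G w)
  rw [DD_vt_le hc, DD_vt_le hc] at h1 h2
  rw [DD_comm hc y x] at h2
  rw [abs_le]
  constructor <;> linarith

theorem l_eq (x : Pt G) : (x.u = x.v ∧ x.l = 0) ∨ x.l = 1 := by
  unfold Pt.l dd
  rcases x.h with h | h
  · left; refine ⟨h, ?_⟩; simp [h]
  · right; rw [SimpleGraph.dist_eq_one_iff_adj.2 h]; simp

theorem DD_at (hc : G.Connected) (x : Pt G) (s t : Set.Icc (0 : ℝ) 1) :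
    DD (x.at s) (x.at t) = |s.1 - t.1| * x.l := by
  have e1 : aa (x.at s) x.u = s.1 * x.l := aa_u (x.at s)
  have e2 : aa (x.at t) x.u = t.1 * x.l := aa_u (x.at t)
  apply le_antisymm
  · rcases l_eq x with ⟨_, h⟩ | h
    · have := DD_le_aa hc (x.at s) (x.at t) x.u
      rw [e1, e2, h] at this
      rw [h]
      linarith
    · rw [h, mul_one]
      exact DD_le_same ⟨rfl, rfl⟩
  · have := aa_diff hc (x.at s) (x.at t) x.u
    rw [e1, e2, ← sub_mul, abs_mul, abs_of_nonneg x.l_nonneg] at this
    exact this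

/-! ### Geodesics in a metric space -/

/-- joined by a geodesic -/
def J {M : Type*} [MetricSpace M] (x y : M) : Prop :=
  ∃ γ : ℝ → M, γ 0 = x ∧ γ (dist x y) = y ∧
    ∀ s ∈ Set.Icc (0 : ℝ) (dist x y), ∀ t ∈ Set.Icc (0 : ℝ) (dist x y),
      dist (γ s) (γ t) = |s - t|

theorem J.refl {M : Type*} [MetricSpace M] (x : M) : J x x := by
  refine ⟨fun _ => x, rfl, rfl, ?_⟩
  intro s hs t ht
  rw [dist_self] at hs ht ⊢
  have h1 : s = 0 := le_antisymm hs.2 hs.1
  have h2 : t = 0 := le_antisymm ht.2 ht.1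
  simp [h1, h2]

theorem J.symm {M : Type*} [MetricSpace M] {x y : M} (h : J x y) : J y x := by
  obtain ⟨γ, h0, h1, h2⟩ := h
  refine ⟨fun s => γ (dist x y - s), ?_, ?_, ?_⟩
  · simpa using h1
  · rw [dist_comm y x]; simpa using h0
  · intro s hs t ht
    rw [dist_comm y x] at hs ht
    rw [h2 _ ⟨by linarith [hs.2], by linarith [hs.1]⟩ _ ⟨by linarith [ht.2], by linarith [ht.1]⟩]
    rw [abs_sub_comm]
    congr 1
    ring

theorem J.trans {M : Type*} [MetricSpace M] {x y z : M} (h : J x y) (h' : J y z)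
    (hd : dist x z = dist x y + dist y z) : J x z := by
  obtain ⟨γ, h0, h1, h2⟩ := h
  obtain ⟨γ', h0', h1', h2'⟩ := h'
  have n1 : 0 ≤ dist x y := dist_nonneg
  have n2 : 0 ≤ dist y z := dist_nonneg
  have key : ∀ s ∈ Set.Icc (0 : ℝ) (dist x z), ∀ t ∈ Set.Icc (0 : ℝ) (dist x z), s ≤ t →
      dist (if s ≤ dist x y then γ s else γ' (s - dist x y))
        (if t ≤ dist x y then γ t else γ' (t - dist x y)) = t - s := by
    intro s hs t ht hst
    by_cases c1 : t ≤ dist x y
    · have c2 : s ≤ dist x y := hst.trans c1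
      rw [if_pos c1, if_pos c2, h2 s ⟨hs.1, c2⟩ t ⟨ht.1, c1⟩, abs_of_nonpos (by linarith)]
      ring
    · by_cases c2 : s ≤ dist x y
      · rw [if_neg c1, if_pos c2]
        push Not at c1
        have b1 : dist x (γ s) = s := by
          have := h2 0 ⟨le_refl _, n1⟩ s ⟨hs.1, c2⟩
          rw [h0] at this
          rw [this, zero_sub, abs_neg, abs_of_nonneg hs.1]
        have b2 : dist (γ s) y = dist x y - s := by
          have := h2 s ⟨hs.1, c2⟩ (dist x y) ⟨n1, le_refl _⟩
          rw [h1] at this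
          rw [this, abs_of_nonpos (by linarith)]
          ring
        have hm : t - dist x y ∈ Set.Icc (0 : ℝ) (dist y z) :=
          ⟨by linarith, by linarith [ht.2]⟩
        have b3 : dist y (γ' (t - dist x y)) = t - dist x y := by
          have := h2' 0 ⟨le_refl _, n2⟩ _ hm
          rw [h0'] at this
          rw [this, zero_sub, abs_neg, abs_of_nonneg hm.1]
        have b4 : dist (γ' (t - dist x y)) z = dist y z - (t - dist x y) := by
          have := h2' _ hm (dist y z) ⟨n2, le_refl _⟩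
          rw [h1'] at this
          rw [this, abs_of_nonpos (by linarith [hm.2])]
          ring
        apply le_antisymm
        · have := dist_triangle (γ s) y (γ' (t - dist x y))
          linarith
        · have e1 := dist_triangle x (γ s) z
          have e2 := dist_triangle (γ s) (γ' (t - dist x y)) z
          linarith
      · rw [if_neg c1, if_neg c2]
        push Not at c1 c2
        rw [h2' _ ⟨by linarith, by linarith [hs.2]⟩ _ ⟨by linarith, by linarith [ht.2]⟩,
          abs_of_nonpos (by linarith)]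
        ring
  refine ⟨fun s => if s ≤ dist x y then γ s else γ' (s - dist x y), ?_, ?_, ?_⟩
  · show (if (0 : ℝ) ≤ dist x y then γ 0 else γ' (0 - dist x y)) = x
    rw [if_pos n1, h0]
  · show (if dist x z ≤ dist x y then γ (dist x z) else γ' (dist x z - dist x y)) = z
    split_ifs with c
    · have hz : dist y z = 0 := by linarith
      have hxz : dist x z = dist x y := by linarith
      rw [hxz, h1]
      exact dist_eq_zero.1 hz
    · have : dist x z - dist x y = dist y z := by linarith
      rw [this, h1']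
  · intro s hs t ht
    rcases le_total s t with h | h
    · rw [abs_of_nonpos (by linarith)]
      have := key s hs t ht h
      simp only
      rw [this]; ring
    · rw [abs_of_nonneg (by linarith), dist_comm]
      exact key t ht s hs h

/-! ### The realization -/

theorem finite_ball (hc : G.Connected) (hlf : ∀ v, (G.neighborSet v).Finite) (o : V) (n : ℕ) :
    {v | G.dist o v ≤ n}.Finite := by
  induction n with
  | zero =>
    refine (Set.finite_singleton o).subset ?_
    intro v hv
    simp only [Set.mem_ofPred_eq, Nat.le_zero] at hv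
    exact (hc.dist_eq_zero_iff.1 hv).symm
  | succ n ih =>
    refine (ih.union (ih.biUnion fun w _ => hlf w)).subset ?_
    intro v hv
    simp only [Set.mem_ofPred_eq] at hv
    by_cases h : G.dist o v ≤ n
    · exact Or.inl h
    · right
      have hv' : G.dist v o = n + 1 := by rw [SimpleGraph.dist_comm]; omega
      obtain ⟨p, hp⟩ := hc.exists_walk_length_eq_dist v o
      rw [hv'] at hp
      cases p with
      | nil => simp at hp
      | @cons _ w _ hadj q =>
        simp only [SimpleGraph.Walk.length_cons, add_left_inj] at hp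
        simp only [Set.mem_iUnion]
        refine ⟨w, ?_, hadj.symm⟩
        have := SimpleGraph.dist_le q
        simp only [Set.mem_ofPred_eq]
        rw [SimpleGraph.dist_comm]
        omega

section Real

variable {R : Type} [MetricSpace R] {mk : Pt G → R}

theorem J_edge (hc : G.Connected) (hmk : ∀ x y, dist (mk x) (mk y) = DD x y) (x : Pt G)
    (s t : Set.Icc (0 : ℝ) 1) : J (mk (x.at s)) (mk (x.at t)) := by
  wlog hst : s.1 ≤ t.1 generalizing s t
  · exact (this t s (le_of_not_ge hst)).symm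
  have hd : dist (mk (x.at s)) (mk (x.at t)) = (t.1 - s.1) * x.l := by
    rw [hmk, DD_at hc, abs_of_nonpos (by linarith)]
    ring
  rcases l_eq x with ⟨_, h⟩ | h
  · rw [h, mul_zero] at hd
    rw [dist_eq_zero.1 hd]
    exact J.refl _
  · rw [h, mul_one] at hd
    refine ⟨fun r => mk (x.at (Set.projIcc 0 1 zero_le_one (s.1 + r))), ?_, ?_, ?_⟩
    · simp only [add_zero]
      rw [Set.projIcc_val]
    · simp only [hd]
      have : s.1 + (t.1 - s.1) = t.1 := by ring
      rw [this, Set.projIcc_val]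
    · intro a ha b hb
      rw [hd] at ha hb
      have h0 := s.2.1
      have h1 := t.2.2
      have e1 : s.1 + a ∈ Set.Icc (0 : ℝ) 1 := ⟨by linarith [ha.1], by linarith [ha.2]⟩
      have e2 : s.1 + b ∈ Set.Icc (0 : ℝ) 1 := ⟨by linarith [hb.1], by linarith [hb.2]⟩
      simp only
      rw [hmk, Set.projIcc_of_mem zero_le_one e1, Set.projIcc_of_mem zero_le_one e2, DD_at hc, h,
        mul_one]
      congr 1
      simp

theorem mk_at_zero (hc : G.Connected) (hmk : ∀ x y, dist (mk x) (mk y) = DD x y) (x : Pt G) :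
    mk (x.at ⟨0, by norm_num⟩) = mk (vt G x.u) := by
  apply dist_eq_zero.1
  rw [hmk, DD_vt_le hc]
  have := aa_u (x.at ⟨0, by norm_num⟩)
  rw [show x.u = (x.at ⟨0, by norm_num⟩).u from rfl, this]
  simp [Pt.at]

theorem mk_at_one (hc : G.Connected) (hmk : ∀ x y, dist (mk x) (mk y) = DD x y) (x : Pt G) :
    mk (x.at ⟨1, by norm_num⟩) = mk (vt G x.v) := by
  apply dist_eq_zero.1
  rw [hmk, DD_vt_le hc]
  have := aa_v (x.at ⟨1, by norm_num⟩)
  rw [show x.v = (x.at ⟨1, by norm_num⟩).v from rfl, this]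
  simp [Pt.at]

theorem J_same (hc : G.Connected) (hmk : ∀ x y, dist (mk x) (mk y) = DD x y) {x y : Pt G}
    (h : Same x y) : J (mk x) (mk y) := by
  have e1 : x = x.at ⟨x.t, x.ht⟩ := by ext <;> rfl
  have e2 : y = x.at ⟨y.t, y.ht⟩ := by
    ext
    · exact h.1.symm
    · exact h.2.symm
    · rfl
  rw [e2]
  nth_rewrite 1 [e1]
  exact J_edge hc hmk x _ _

theorem J_flip (hc : G.Connected) (hmk : ∀ x y, dist (mk x) (mk y) = DD x y) {x y : Pt G}
    (h : Flip x y) : J (mk x) (mk y) := by
  let y' : Pt G := ⟨y.v, y.u, 1 - y.t, y.h.imp Eq.symm SimpleGraph.Adj.symm,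
    by have := y.ht; constructor <;> linarith⟩
  have hf : Flip y y' := ⟨rfl, rfl⟩
  have e : mk y = mk y' := by
    apply dist_eq_zero.1
    rw [hmk]
    apply le_antisymm _ (DD_nonneg _ _)
    refine (DD_le_flip hc hf).trans (le_of_eq ?_)
    simp [y']
  rw [e]
  exact J_same hc hmk (y := y') ⟨h.1, h.2⟩

theorem J_vt (hc : G.Connected) (hmk : ∀ x y, dist (mk x) (mk y) = DD x y) (v : V) :
    ∀ (n : ℕ) (w : V), G.dist v w = n → J (mk (vt G v)) (mk (vt G w)) := by
  intro n
  induction n with
  | zero =>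
    intro w hw
    rw [hc.dist_eq_zero_iff.1 hw]
    exact J.refl _
  | succ n ih =>
    intro w hw
    obtain ⟨p, hp⟩ := hc.exists_walk_length_eq_dist w v
    rw [SimpleGraph.dist_comm, hw] at hp
    cases p with
    | nil => simp at hp
    | @cons _ w' _ hadj q =>
      simp only [SimpleGraph.Walk.length_cons, add_left_inj] at hp
      have h1 : G.dist v w' = n := by
        have a1 := SimpleGraph.dist_le q
        have a2 := hc.dist_triangle (u := v) (v := w') (w := w)
        have a3 : G.dist w' w = 1 := SimpleGraph.dist_eq_one_iff_adj.2 hadj.symm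
        have a4 : G.dist v w' = G.dist w' v := SimpleGraph.dist_comm
        omega
      refine (ih w' h1).trans (y := mk (vt G w')) ?_ ?_
      · let x : Pt G := ⟨w', w, 0, Or.inr hadj.symm, by norm_num⟩
        have e1 := mk_at_zero hc hmk x
        have e2 := mk_at_one hc hmk x
        have := J_edge hc hmk x ⟨0, by norm_num⟩ ⟨1, by norm_num⟩
        rw [e1, e2] at this
        exact this
      · rw [hmk, hmk, hmk, DD_vt_vt hc, DD_vt_vt hc, DD_vt_vt hc]
        unfold dd
        rw [hw, h1, SimpleGraph.dist_eq_one_iff_adj.2 hadj.symm]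
        simp

theorem J_pt_vt (hc : G.Connected) (hmk : ∀ x y, dist (mk x) (mk y) = DD x y) (x : Pt G)
    (w : V) : J (mk x) (mk (vt G w)) := by
  have e1 : x = x.at ⟨x.t, x.ht⟩ := by ext <;> rfl
  rcases min_choice (x.t * x.l + dd G x.u w) ((1 - x.t) * x.l + dd G x.v w) with h | h
  · refine J.trans (y := mk (vt G x.u)) ?_ (J_vt hc hmk x.u _ w rfl) ?_
    · rw [← mk_at_zero hc hmk]
      nth_rewrite 1 [e1]
      exact J_edge hc hmk x _ _
    · rw [hmk, hmk, hmk, DD_vt_vt hc, DD_vt_le hc, DD_vt_le hc, aa_u]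
      exact h
  · refine J.trans (y := mk (vt G x.v)) ?_ (J_vt hc hmk x.v _ w rfl) ?_
    · rw [← mk_at_one hc hmk]
      nth_rewrite 1 [e1]
      exact J_edge hc hmk x _ _
    · rw [hmk, hmk, hmk, DD_vt_vt hc, DD_vt_le hc, DD_vt_le hc, aa_v]
      exact h

theorem J_all (hc : G.Connected) (hmk : ∀ x y, dist (mk x) (mk y) = DD x y) (x y : Pt G) :
    J (mk x) (mk y) := by
  rcases DD_cases x y with ⟨w, h⟩ | ⟨hs, h⟩ | ⟨hf, h⟩
  · refine J.trans (y := mk (vt G w)) (J_pt_vt hc hmk x w) (J_pt_vt hc hmk y w).symm ?_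
    rw [dist_comm (mk (vt G w)), hmk, hmk, hmk, DD_vt_le hc, DD_vt_le hc]
    exact h
  · exact J_same hc hmk hs
  · exact J_flip hc hmk hf

theorem geodesic_real (hc : G.Connected) (hmk : ∀ x y, dist (mk x) (mk y) = DD x y)
    (hsurj : Function.Surjective mk) : Geodesic R := by
  intro a b
  obtain ⟨x, rfl⟩ := hsurj a
  obtain ⟨y, rfl⟩ := hsurj b
  exact J_all hc hmk x y

theorem near_vt (hc : G.Connected) (hmk : ∀ x y, dist (mk x) (mk y) = DD x y) (x : Pt G) :
    dist (mk x) (mk (vt G x.u)) ≤ 1 := by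
  rw [hmk, DD_vt_le hc, aa_u]
  have h1 := x.ht
  have h2 := x.l_nonneg
  have h3 := x.l_le_one
  nlinarith

theorem near_vt' (hc : G.Connected) (hmk : ∀ x y, dist (mk x) (mk y) = DD x y) (x : Pt G) :
    dist (mk x) (mk (vt G x.v)) ≤ 1 := by
  rw [hmk, DD_vt_le hc, aa_v]
  have h1 := x.ht
  have h2 := x.l_nonneg
  have h3 := x.l_le_one
  nlinarith

theorem proper_real (hc : G.Connected) (hlf : ∀ v, (G.neighborSet v).Finite)
    (hmk : ∀ x y, dist (mk x) (mk y) = DD x y)
    (hsurj : Function.Surjective mk) : ProperSpace R := by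
  refine ⟨fun a r => ?_⟩
  obtain ⟨x, rfl⟩ := hsurj a
  set N : ℕ := ⌈r⌉₊ + 2 with hN
  have hF := finite_ball hc hlf x.u N
  set F : Set V := {v | G.dist x.u v ≤ N} with hFdef
  set K : Set R := ⋃ u ∈ F, ⋃ v ∈ F, ⋃ h : u = v ∨ G.Adj u v,
    Set.range (fun s : Set.Icc (0 : ℝ) 1 => mk ⟨u, v, s.1, h, s.2⟩) with hK
  have hKc : IsCompact K := by
    refine hF.isCompact_biUnion fun u _ => hF.isCompact_biUnion fun v _ => ?_
    refine isCompact_iUnion fun h => isCompact_range ?_
    have hlip : LipschitzWith 1 (fun s : Set.Icc (0 : ℝ) 1 => mk ⟨u, v, s.1, h, s.2⟩) := by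
      refine LipschitzWith.of_dist_le_mul fun s t => ?_
      rw [hmk]
      refine (DD_le_same (x := ⟨u, v, s.1, h, s.2⟩) (y := ⟨u, v, t.1, h, t.2⟩) ⟨rfl, rfl⟩).trans ?_
      simp [Subtype.dist_eq, Real.dist_eq]
    exact hlip.continuous
  refine hKc.of_isClosed_subset Metric.isClosed_closedBall ?_
  intro b hb
  obtain ⟨y, rfl⟩ := hsurj b
  rw [Metric.mem_closedBall] at hb
  have bound : ∀ w, dist (mk y) (mk (vt G w)) ≤ 1 → w ∈ F := by
    intro w hw
    have h1 := near_vt hc hmk x
    have h2 : dist (mk (vt G x.u)) (mk (vt G w)) ≤ r + 2 := by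
      have t1 := dist_triangle (mk (vt G x.u)) (mk x) (mk (vt G w))
      have t2 := dist_triangle (mk x) (mk y) (mk (vt G w))
      rw [dist_comm (mk (vt G x.u)) (mk x)] at t1
      rw [dist_comm (mk x) (mk y)] at t2
      linarith
    rw [hmk, DD_vt_vt hc] at h2
    have h3 : (G.dist x.u w : ℝ) ≤ (N : ℝ) := by
      have := Nat.le_ceil r
      rw [hN]
      push_cast
      unfold dd at h2
      linarith
    exact_mod_cast h3
  simp only [hK, Set.mem_iUnion]
  exact ⟨y.u, bound _ (near_vt hc hmk y), y.v, bound _ (near_vt' hc hmk y), y.h,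
    ⟨⟨y.t, y.ht⟩, rfl⟩⟩

end Real

/-! ### The action -/

section Act

variable {P : Type} [Group P] [MulAction P V]

theorem dist_smul (hP : ∀ (g : P) (v w : V), G.Adj v w → G.Adj (g • v) (g • w)) (hc : G.Connected)
    (g : P) (v w : V) : G.dist (g • v) (g • w) = G.dist v w := by
  have key : ∀ (g : P) (v w : V), G.dist (g • v) (g • w) ≤ G.dist v w := by
    intro g v w
    obtain ⟨p, hp⟩ := hc.exists_walk_length_eq_dist v w
    let f : G →g G := ⟨fun x => g • x, fun {a b} h => hP g a b h⟩
    have := SimpleGraph.dist_le (p.map f)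
    rw [SimpleGraph.Walk.length_map, hp] at this
    exact this
  apply le_antisymm (key g v w)
  have := key g⁻¹ (g • v) (g • w)
  rwa [inv_smul_smul, inv_smul_smul] at this

/-- the action on points -/
@[reducible] def ptAct (hP : ∀ (g : P) (v w : V), G.Adj v w → G.Adj (g • v) (g • w)) :
    MulAction P (Pt G) where
  smul g x := ⟨g • x.u, g • x.v, x.t, x.h.imp (fun e => by rw [e]) (hP g _ _), x.ht⟩
  one_smul x := by
    ext
    · exact one_smul P x.u
    · exact one_smul P x.v
    · rfl
  mul_smul g h x := by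
    ext
    · exact mul_smul g h x.u
    · exact mul_smul g h x.v
    · rfl

theorem DD_smul (hP : ∀ (g : P) (v w : V), G.Adj v w → G.Adj (g • v) (g • w)) (hc : G.Connected)
    (g : P) (x y : Pt G) :
    letI := ptAct hP
    DD (g • x) (g • y) = DD x y := by
  letI := ptAct hP
  have ha : ∀ (x : Pt G) (w : V), aa (g • x) (g • w) = aa x w := by
    intro x w
    unfold aa Pt.l dd
    have e1 : (g • x).u = g • x.u := rfl
    have e2 : (g • x).v = g • x.v := rfl
    have e3 : (g • x).t = x.t := rfl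
    rw [e1, e2, e3, dist_smul hP hc, dist_smul hP hc, dist_smul hP hc]
  have hu : ∀ x : Pt G, (g • x).u = g • x.u := fun _ => rfl
  have hv : ∀ x : Pt G, (g • x).v = g • x.v := fun _ => rfl
  have ht : ∀ x : Pt G, (g • x).t = x.t := fun _ => rfl
  have hS : Same (g • x) (g • y) ↔ Same x y := by
    unfold Same
    rw [hu x, hu y, hv x, hv y, smul_left_cancel_iff, smul_left_cancel_iff]
  have hF : Flip (g • x) (g • y) ↔ Flip x y := by
    unfold Flip
    rw [hu x, hu y, hv x, hv y, smul_left_cancel_iff, smul_left_cancel_iff]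
  change DD (g • x) (g • y) = DD x y
  unfold DD
  rw [hu y, hv y, ha, ha, ha, ha, ht x, ht y]
  by_cases h1 : Same x y
  · rw [if_pos h1, if_pos (hS.2 h1)]
  · rw [if_neg h1, if_neg (fun h => h1 (hS.1 h))]
    by_cases h2 : Flip x y
    · rw [if_pos h2, if_pos (hF.2 h2)]
    · rw [if_neg h2, if_neg (fun h => h2 (hF.1 h))]

end Act

theorem exists_realization {V : Type} (G : SimpleGraph V) (hc : G.Connected)
    (hlf : ∀ v, (G.neighborSet v).Finite) {P : Type} [Group P] [MulAction P V]
    (hP : ∀ (g : P) (v w : V), G.Adj v w → G.Adj (g • v) (g • w)) :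
    ∃ (R : Type) (_ : MetricSpace R) (_ : MulAction P R) (ι : V → R),
      ProperSpace R ∧ Geodesic R ∧ (∀ (g : P) (x y : R), dist (g • x) (g • y) = dist x y) ∧
      (∀ v w, dist (ι v) (ι w) = (G.dist v w : ℝ)) ∧
      (∀ r, ∃ v, dist r (ι v) ≤ 1) ∧ (∀ (g : P) v, ι (g • v) = g • ι v) := by
  letI := ptMetric hc
  letI := ptAct hP
  haveI : IsIsometricSMul P (Pt G) := ⟨fun g => Isometry.of_dist_eq fun x y => DD_smul hP hc g x y⟩
  have hmk : ∀ x y : Pt G, dist (SeparationQuotient.mk x) (SeparationQuotient.mk y) = DD x y :=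
    fun x y => SeparationQuotient.dist_mk x y
  have hsurj : Function.Surjective (SeparationQuotient.mk : Pt G → _) :=
    SeparationQuotient.surjective_mk
  refine ⟨SeparationQuotient (Pt G), inferInstance, inferInstance,
    fun v => SeparationQuotient.mk (vt G v), proper_real hc hlf hmk hsurj,
    geodesic_real hc hmk hsurj, ?_, ?_, ?_, ?_⟩
  · intro g x y
    obtain ⟨x, rfl⟩ := hsurj x
    obtain ⟨y, rfl⟩ := hsurj y
    rw [← SeparationQuotient.mk_smul, ← SeparationQuotient.mk_smul, hmk, hmk]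
    exact DD_smul hP hc g x y
  · intro v w
    rw [hmk, DD_vt_vt hc]
    rfl
  · intro r
    obtain ⟨x, rfl⟩ := hsurj r
    exact ⟨x.u, near_vt hc hmk x⟩
  · intro g v
    rw [← SeparationQuotient.mk_smul]
    rfl

end Pool.Agent.helper50.LC
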